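import Pool.Agent.H73.CBE.Stmts

/-!
# Board CBE, row LGH: the logarithm of a holomorphic map without zeros
-/

set_option autoImplicit false

open Set Filter Topology

namespace Pool.CBE

/-- the derivative of `log ‖g‖²` -/
noncomputable def lgh_D {n : ℕ} (g : E n → E n) (z : E n) : E n →L[ℝ] ℝ :=
  (2 : ℝ) • ((innerSL ℝ ((‖g z‖ ^ 2)⁻¹ • g z)).comp ((fderiv ℂ g z).restrictScalars ℝ))

theorem lgh_has {n : ℕ} (g : E n → E n) (z : E n) (hd : DifferentiableAt ℂ g z) (h0 : g z ≠ 0) :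
    HasFDerivAt (fun y => Real.log (‖g y‖ ^ 2)) (lgh_D g z) z := by
  have h1 : HasFDerivAt g ((fderiv ℂ g z).restrictScalars ℝ) z :=
    hd.hasFDerivAt.restrictScalars ℝ
  have h2 := h1.norm_sq
  have hne : ‖g z‖ ^ 2 ≠ 0 := by
    have : ‖g z‖ ≠ 0 := norm_ne_zero_iff.2 h0
    positivity
  have h3 := h2.log hne
  refine h3.congr_fderiv ?_
  ext v
  simp only [lgh_D, _root_.smul_apply, ContinuousLinearMap.comp_apply, map_smul,
    smul_eq_mul]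
  simp
  ring

theorem lgh_norm {n : ℕ} (a : E n) (A : E n →L[ℝ] E n) :
    ‖(2 : ℝ) • ((innerSL ℝ a).comp A)‖ ≤ 2 * (‖a‖ * ‖A‖) := by
  rw [norm_smul]
  have h1 : ‖(innerSL ℝ a).comp A‖ ≤ ‖innerSL ℝ a‖ * ‖A‖ := ContinuousLinearMap.opNorm_comp_le _ _
  rw [innerSL_apply_norm] at h1
  rw [Real.norm_eq_abs, abs_of_pos (by norm_num : (0 : ℝ) < 2)]
  nlinarith

theorem lgh_inv {n : ℕ} (m : ℝ) (hm : 0 < m) (a b : E n) (ha : m ≤ ‖a‖) (hb : m ≤ ‖b‖) :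
    ‖(‖a‖ ^ 2)⁻¹ • a‖ ≤ 1 / m ∧
    ‖(‖a‖ ^ 2)⁻¹ • a - (‖b‖ ^ 2)⁻¹ • b‖ ≤ 1 / m ^ 2 * ‖a - b‖ := by
  have ha0 : 0 < ‖a‖ := lt_of_lt_of_le hm ha
  have hb0 : 0 < ‖b‖ := lt_of_lt_of_le hm hb
  constructor
  · rw [norm_smul, norm_inv, norm_pow, norm_norm]
    rw [inv_mul_eq_div, div_le_div_iff₀ (by positivity) hm]
    nlinarith
  · have h := dist_div_norm_sq_smul (norm_pos_iff.1 ha0) (norm_pos_iff.1 hb0) (1 : ℝ)
    have e1 : (‖a‖ ^ 2)⁻¹ • a = (1 / ‖a‖) ^ 2 • a := by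
      rw [div_pow, one_pow, one_div]
    have e2 : (‖b‖ ^ 2)⁻¹ • b = (1 / ‖b‖) ^ 2 • b := by
      rw [div_pow, one_pow, one_div]
    rw [e1, e2, ← dist_eq_norm, h, dist_eq_norm, one_pow]
    refine mul_le_mul_of_nonneg_right ?_ (norm_nonneg _)
    refine one_div_le_one_div_of_le (by positivity) ?_
    rw [pow_two]
    exact mul_le_mul ha hb hm.le ha0.le

theorem LGH_thm (h1 : CAUStmt) : LGHStmt := by
  intro n m M hm hmM
  have hM : 0 < M := lt_of_lt_of_le hm hmM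
  have hMm : 0 < M / m := div_pos hM hm
  refine ⟨32 * (M / m) + 32 * (M / m) ^ 2, by positivity, ?_⟩
  intro g z₀ r hr hg hb
  obtain ⟨hA, hB⟩ := h1 n g z₀ r M hr hM.le hg (fun z hz => (hb z hz).2)
  have hsub : Metric.ball z₀ (r / 2) ⊆ Metric.ball z₀ r :=
    Metric.ball_subset_ball (by linarith)
  have hdiff : ∀ z ∈ Metric.ball z₀ (r / 2), DifferentiableAt ℂ g z := fun z hz =>
    (hg.differentiableOn (by norm_num)).differentiableAt
      (Metric.isOpen_ball.mem_nhds (hsub hz))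
  have h0 : ∀ z ∈ Metric.ball z₀ (r / 2), g z ≠ 0 := fun z hz h => by
    have := (hb z (hsub hz)).1
    rw [h, norm_zero] at this
    linarith
  have hlip : ∀ z ∈ Metric.ball z₀ (r / 2), ∀ y ∈ Metric.ball z₀ (r / 2),
      ‖g z - g y‖ ≤ 4 * M / r * ‖z - y‖ := fun z hz y hy =>
    Convex.norm_image_sub_le_of_norm_fderiv_le (𝕜 := ℂ) hdiff hA (convex_ball _ _) hy hz
  have hf : ∀ z ∈ Metric.ball z₀ (r / 2),
      HasFDerivAt (fun y => Real.log (‖g y‖ ^ 2)) (lgh_D g z) z := fun z hz =>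
    lgh_has g z (hdiff z hz) (h0 z hz)
  have hr1 : ∀ z : E n, ‖(fderiv ℂ g z).restrictScalars ℝ‖ = ‖fderiv ℂ g z‖ := fun z =>
    ContinuousLinearMap.norm_restrictScalars _
  refine ⟨fun z hz => ⟨(hf z hz).differentiableAt, ?_⟩, fun z hz y hy => ?_⟩
  · rw [(hf z hz).fderiv]
    refine (lgh_norm _ _).trans ?_
    have i1 := (lgh_inv m hm (g z) (g z) (hb z (hsub hz)).1 (hb z (hsub hz)).1).1
    have i2 := hA z hz
    rw [hr1]
    have i3 : ‖(‖g z‖ ^ 2)⁻¹ • g z‖ * ‖fderiv ℂ g z‖ ≤ 1 / m * (4 * M / r) :=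
      mul_le_mul i1 i2 (norm_nonneg _) (by positivity)
    have i4 : (32 * (M / m) + 32 * (M / m) ^ 2) / r = 2 * (1 / m * (4 * M / r)) +
        (24 * (M / m) + 32 * (M / m) ^ 2) / r := by
      field_simp
      ring
    have i5 : 0 ≤ (24 * (M / m) + 32 * (M / m) ^ 2) / r := by positivity
    linarith
  · rw [(hf z hz).fderiv, (hf y hy).fderiv]
    have e : lgh_D g z - lgh_D g y =
        (2 : ℝ) • ((innerSL ℝ ((‖g z‖ ^ 2)⁻¹ • g z)).comp
          ((fderiv ℂ g z).restrictScalars ℝ - (fderiv ℂ g y).restrictScalars ℝ)) +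
        (2 : ℝ) • ((innerSL ℝ ((‖g z‖ ^ 2)⁻¹ • g z - (‖g y‖ ^ 2)⁻¹ • g y)).comp
          ((fderiv ℂ g y).restrictScalars ℝ)) := by
      ext v
      simp only [lgh_D, _root_.sub_apply, _root_.add_apply,
        _root_.smul_apply, ContinuousLinearMap.comp_apply, map_sub]
      simp only [smul_eq_mul]
      ring
    rw [e]
    have hz1 := (hb z (hsub hz)).1
    have hy1 := (hb y (hsub hy)).1
    obtain ⟨i1, i2⟩ := lgh_inv m hm (g z) (g y) hz1 hy1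
    have e2 : (fderiv ℂ g z).restrictScalars ℝ - (fderiv ℂ g y).restrictScalars ℝ =
        (fderiv ℂ g z - fderiv ℂ g y).restrictScalars ℝ := rfl
    refine (norm_add_le _ _).trans ?_
    refine (add_le_add (lgh_norm _ _) (lgh_norm _ _)).trans ?_
    rw [e2, ContinuousLinearMap.norm_restrictScalars, ContinuousLinearMap.norm_restrictScalars]
    have j1 : ‖(‖g z‖ ^ 2)⁻¹ • g z‖ * ‖fderiv ℂ g z - fderiv ℂ g y‖ ≤
        1 / m * (16 * M / r ^ 2 * ‖z - y‖) :=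
      mul_le_mul i1 (hB z hz y hy) (norm_nonneg _) (by positivity)
    have j2 : ‖(‖g z‖ ^ 2)⁻¹ • g z - (‖g y‖ ^ 2)⁻¹ • g y‖ ≤
        1 / m ^ 2 * (4 * M / r * ‖z - y‖) :=
      i2.trans (mul_le_mul_of_nonneg_left (hlip z hz y hy) (by positivity))
    have j3 : ‖(‖g z‖ ^ 2)⁻¹ • g z - (‖g y‖ ^ 2)⁻¹ • g y‖ * ‖fderiv ℂ g y‖ ≤
        1 / m ^ 2 * (4 * M / r * ‖z - y‖) * (4 * M / r) :=
      mul_le_mul j2 (hA y hy) (norm_nonneg _) (by positivity)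
    have e3 : (32 * (M / m) + 32 * (M / m) ^ 2) / r ^ 2 * ‖z - y‖ =
        2 * (1 / m * (16 * M / r ^ 2 * ‖z - y‖)) +
        2 * (1 / m ^ 2 * (4 * M / r * ‖z - y‖) * (4 * M / r)) := by
      field_simp
      ring
    rw [e3]
    linarith

end Pool.CBE
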